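import Pool.Agent.Helper77.KB.Final

/-!
# MP_f758a3_nt: the solutions of `a (n - 1) = rad (n + 1)`

`a n` is the least common multiple of the denominators, in lowest terms, of the coefficients of
the polynomial `B_{n+1}(x) - B_{n+1}`, and `rad m` is the product of the distinct primes
dividing `m`. The set of the integers `n ≥ 1` with `a (n - 1) = rad (n + 1)` is exactly
`{3, 5, 8, 9, 11, 27, 29, 35, 59}`.

The proof: a prime `p > sqrt n` divides `a (n - 1)` if and only if `n / p + n % p ≥ p`, and at
most one prime `p > sqrt n` divides `n + 1`. For `n ≥ 1081` a prime `p` just above `sqrt n` is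
found which divides `a (n - 1)` and not `n + 1`: for `n < 2 ^ 54` by a chain of explicit primes,
and for `n ≥ 2 ^ 54` by counting. The number of primes in `(s, s + s / 50]`, `s = sqrt n`, is
bounded below by explicit bounds `|psi x - x| ≤ delta_j x` on dyadic intervals (an identity of
Chebyshev type with the Moebius function up to `1000`, verified by the kernel up to `10 ^ 6`, and
a recursion), and the number of the primes in this interval which do not divide `a (n - 1)` is
bounded above by an injection, by equidistribution in residue classes (sums of the sawtooth
function) and by the sieve of Selberg.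
-/

set_option autoImplicit false

namespace Pool.Agent.Results.MP_f758a3_nt.SolutionSet

/-- `a n`: the least common multiple of the denominators (in lowest terms) of the coefficients
of the polynomial `B_{n+1}(x) - B_{n+1}`, which has degree `n + 1`. -/
noncomputable def a (n : ℕ) : ℕ :=
  (Finset.range (n + 2)).lcm fun k =>
    ((Polynomial.bernoulli (n + 1) - Polynomial.C (bernoulli (n + 1))).coeff k).den

/-- `rad m`: the product of the distinct primes dividing `m`. -/
def rad (m : ℕ) : ℕ := ∏ p ∈ m.primeFactors, p

/-- The integers `n ≥ 1` with `a (n - 1) = rad (n + 1)` are exactly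
`3, 5, 8, 9, 11, 27, 29, 35, 59`. -/
theorem result : {n : ℕ | 1 ≤ n ∧ a (n - 1) = rad (n + 1)} = {3, 5, 8, 9, 11, 27, 29, 35, 59} :=
  KB.solution_set

end Pool.Agent.Results.MP_f758a3_nt.SolutionSet
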